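import Pool.Agent.Helper20.CP.All

/-!
# The faster colour wins (MP_884359_pr, full answer: yes, for both couplings)

Configuration model with independent degrees `D ≥ 2`, `P(D > x)` between two multiples of
`x ^ (-(τ - 1))`, `2 < τ < 3`. Red crosses an edge in a time with the law of `c + X`, blue in a time
with the law of `lam * (c + X)`, `c > 0`, `lam > 1`, `X ≥ 0` with an arbitrary law `μ`. The pairs
(red time, blue time) of the edges are independent with law `ρ`; the coupling `ρ` of the two times
of one edge is arbitrary (in particular: `blue = lam * red`, and independent times). The sources are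
independent uniform vertices; ties are broken by arbitrary coins. Then for every `δ > 0` the
probability that more than `δ n` vertices are not painted red tends to `0`.

The definitions (`pairings`, `avg`, `fixDeg`, `HE`, `WM`, `Outcome`, `Pr`) are in
`Pool/Agent/Helper20/CP/Defs.lean`.
-/

set_option autoImplicit false

open MeasureTheory ProbabilityTheory Filter Topology
open scoped ENNReal

namespace Pool.Agent.Results.MP_884359_pr.FasterColourWins

open Pool.Agent.Helper20.CP

open Classical in
/-- `R_∞ = n - o_P(n)`: for every `δ > 0` the (outer) probability that there is an outcome of the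
competition, for some way to break the ties, in which more than `δ n` vertices are not red
tends to `0`. -/
def RedWins (ν : Measure ℕ) (ρ : Measure (ℝ × ℝ)) : Prop :=
  ∀ δ : ℝ, 0 < δ → Tendsto (fun n : ℕ => Pr ν ρ n fun _ σ w r b =>
      ∃ (coin : Fin n → Bool) (t : Fin n → ℝ≥0∞) (red blue : Set (Fin n)),
        Outcome Sigma.fst σ w coin r b t red blue ∧
          δ * n < ((Finset.univ.filter fun v => v ∉ red).card : ℝ)) atTop (𝓝 0)

theorem result (τ c1 C1 : ℝ) (hτ2 : 2 < τ) (hτ3 : τ < 3) (hc1 : 0 < c1)
    -- the law of the degrees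
    (ν : Measure ℕ) [IsProbabilityMeasure ν] (hν : ν {k | k < 2} = 0)
    (hlow : ∀ x : ℝ, 1 ≤ x → ENNReal.ofReal (c1 / x ^ (τ - 1)) ≤ ν {k : ℕ | x < (k : ℝ)})
    (hup : ∀ x : ℝ, 1 ≤ x → ν {k : ℕ | x < (k : ℝ)} ≤ ENNReal.ofReal (C1 / x ^ (τ - 1)))
    -- the law of `X`, the constants `c` and `lam`
    (μ : Measure ℝ) [IsProbabilityMeasure μ] (hμ : μ (Set.Iio 0) = 0) (c lam : ℝ) (hc : 0 < c)
    (hlam : 1 < lam) :
    -- common length: `T^b = lam * T^r`
    RedWins ν (μ.map fun x => (c + x, lam * (c + x))) ∧
    -- independent passage times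
    RedWins ν ((μ.map fun x => c + x).prod (μ.map fun x => lam * (c + x))) ∧
    -- every coupling of the two passage times of an edge
    (∀ ρ : Measure (ℝ × ℝ), ρ.map Prod.fst = μ.map (fun x => c + x) →
      ρ.map Prod.snd = μ.map (fun x => lam * (c + x)) →
        RedWins ν ρ ∧ ∀ n : ℕ, 1 ≤ n → Pr ν ρ n (fun _ _ _ _ _ => True) = 1) ∧
    -- the competition has an outcome on every finite graph, for all coins
    (∀ (X V : Type) [Fintype X] [Fintype V] (vt : X → V) (σ : Equiv.Perm X)
      (w : Sym2 X → ℝ × ℝ) (coin : V → Bool) (r b : V), (∀ x, σ (σ x) = x) →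
      (∀ p, 0 < (w p).1) → (∀ p, 0 < (w p).2) →
        ∃ (t : V → ℝ≥0∞) (red blue : Set V), Outcome vt σ w coin r b t red blue) := by
  have hmain : S_MAIN := All.main_thm
  have hess : S_ESS := All.ess_thm
  have hone : S_ONE := All.one_thm
  have hex : S_EX := All.ex_thm
  have key : ∀ ρ : Measure (ℝ × ℝ), ρ.map Prod.fst = μ.map (fun x => c + x) →
      ρ.map Prod.snd = μ.map (fun x => lam * (c + x)) →
        RedWins ν ρ ∧ ∀ n : ℕ, 1 ≤ n → Pr ν ρ n (fun _ _ _ _ _ => True) = 1 := by
    intro ρ h1 h2
    have hprob : IsProbabilityMeasure ρ := by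
      constructor
      have e1 : ρ.map Prod.fst Set.univ = ρ Set.univ := by
        rw [Measure.map_apply measurable_fst MeasurableSet.univ, Set.preimage_univ]
      rw [← e1, h1, Measure.map_apply (by fun_prop) MeasurableSet.univ, Set.preimage_univ,
        measure_univ]
    obtain ⟨c0, hc0, hρ1, hρ2, hη⟩ := hess μ c lam hc hlam hμ ρ h1 h2
    refine ⟨?_, fun n hn => hone ν ρ n hn⟩
    intro δ hδ
    have hτ : (1 : ℝ) + (τ - 2) = τ - 1 := by ring
    refine hmain ν (τ - 2) c1 C1 (by linarith) (by linarith) hc1 hν ?_ ?_ ρ c0 lam hc0 hlam hρ1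
      hρ2 hη δ hδ
    · rw [hτ]; exact hlow
    · rw [hτ]; exact hup
  refine ⟨?_, ?_, key, hex⟩
  · refine (key _ ?_ ?_).1
    · rw [Measure.map_map measurable_fst (by fun_prop)]
      rfl
    · rw [Measure.map_map measurable_snd (by fun_prop)]
      rfl
  · have p1 : IsProbabilityMeasure (μ.map fun x => c + x) :=
      Measure.isProbabilityMeasure_map (by fun_prop)
    have p2 : IsProbabilityMeasure (μ.map fun x => lam * (c + x)) :=
      Measure.isProbabilityMeasure_map (by fun_prop)
    refine (key _ ?_ ?_).1
    · rw [Measure.map_fst_prod, measure_univ, one_smul]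
    · rw [Measure.map_snd_prod, measure_univ, one_smul]

end Pool.Agent.Results.MP_884359_pr.FasterColourWins
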